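import Mathlib

open Set Filter Topology

namespace Pool.Agent.Results.MP_c44e76_an.InverseShadow

variable {X : Type} [TopologicalSpace X]

/-- the `(2,2)`-shadowing property -/
def Shadow22 (G : Set (X × X)) : Prop :=
  ∀ U ∈ 𝓝ˢ (diagonal X), ∃ V ∈ 𝓝ˢ (diagonal X), ∀ x : ℕ → X, (∀ n, ∃ y, (x n, y) ∈ G) →
    (∀ n, ∃ y, (x n, y) ∈ G ∧ (x (n + 1), y) ∈ V) →
      ∃ y : ℕ → X, (∀ n, (y n, y (n + 1)) ∈ G) ∧ ∀ n, (x n, y n) ∈ U

/-- the `(1,2)`-shadowing property -/
def Shadow12 (G : Set (X × X)) : Prop :=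
  ∀ U ∈ 𝓝ˢ (diagonal X), ∃ V ∈ 𝓝ˢ (diagonal X), ∀ x : ℕ → X, (∀ n, ∃ y, (x n, y) ∈ G) →
    (∀ n y, (x n, y) ∈ G → (x (n + 1), y) ∈ V) →
      ∃ y : ℕ → X, (∀ n, (y n, y (n + 1)) ∈ G) ∧ ∀ n, (x n, y n) ∈ U

theorem result (X : Type) [TopologicalSpace X] [CompactSpace X] [T2Space X] (G : Set (X × X))
    (hG : IsClosed G) (hΔ : diagonal X ⊆ G) (h : Shadow22 G) :
    Shadow22 {p : X × X | (p.2, p.1) ∈ G} ∧ Shadow12 {p : X × X | (p.2, p.1) ∈ G} := by
  have main : Shadow22 {p : X × X | (p.2, p.1) ∈ G} := by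
    let _ := uniformSpaceOfCompactR1 (γ := X)
    intro U hU
    rw [← nhdsSet_diagonal_eq_uniformity.symm] at hU ⊢
    obtain ⟨U1, ⟨hU1, c1⟩, s1⟩ := uniformity_hasBasis_closed.mem_iff.1 hU
    obtain ⟨U2, hU2, s2⟩ := comp_mem_uniformity_sets hU1
    have h' := h U2 (by rwa [nhdsSet_diagonal_eq_uniformity])
    rw [nhdsSet_diagonal_eq_uniformity] at h'
    obtain ⟨V, hV, h'⟩ := h'
    refine ⟨U2 ∩ Prod.swap ⁻¹' V, inter_mem hU2 (symm_le_uniformity hV), fun x _ hx => ?_⟩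
    choose y y1 y2 using hx
    have key : ∀ N, ∃ w : ℕ → X, ∀ n < N, (w (n + 1), w n) ∈ G ∧ (x n, w n) ∈ U1 := by
      intro N
      obtain ⟨w, w1, w2⟩ := h' (fun k => if k < N then y (N - 1 - k) else x 0)
        (fun n => ⟨_, hΔ rfl⟩) fun k => by
          by_cases a : k + 1 < N
          · refine ⟨x (N - 1 - k), by rw [if_pos (by omega)]; exact y1 _, ?_⟩
            have := (y2 (N - 1 - (k + 1))).2
            rw [show N - 1 - (k + 1) + 1 = N - 1 - k by omega] at this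
            rw [if_pos a]; exact this
          · refine ⟨x 0, ?_, by rw [if_neg a]; exact refl_mem_uniformity hV⟩
            split_ifs with b
            · rw [show N - 1 - k = 0 by omega]; exact y1 0
            · exact hΔ rfl
      refine ⟨fun n => w (N - n), fun n hn => ⟨?_, s2 ?_⟩⟩
      · have := w1 (N - (n + 1))
        rwa [show N - (n + 1) + 1 = N - n by omega] at this
      · have := w2 (N - n)
        rcases n with _ | n
        · exact ⟨x 0, refl_mem_uniformity hU2, by simpa using this⟩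
        · rw [if_pos (by omega), show N - 1 - (N - (n + 1)) = n by omega] at this
          exact ⟨y n, (y2 n).1, this⟩
    choose w hw using key
    let F := hyperfilter ℕ
    have hF : ∀ n, ∀ᶠ N in (F : Filter ℕ), n < N := fun n =>
      hyperfilter_le_cofinite (Nat.cofinite_eq_atTop ▸ eventually_gt_atTop n)
    have hz : ∀ n, ∃ z, Tendsto (fun N => w N n) F (𝓝 z) := fun n =>
      ⟨_, (F.map fun N => w N n).le_nhds_lim⟩
    choose z hz using hz
    exact ⟨z, fun n => hG.mem_of_tendsto ((hz (n + 1)).prodMk_nhds (hz n))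
      ((hF n).mono fun N hN => (hw N n hN).1), fun n => s1 (c1.mem_of_tendsto
      (tendsto_const_nhds.prodMk_nhds (hz n)) ((hF n).mono fun N hN => (hw N n hN).2))⟩
  refine ⟨main, fun U hU => ?_⟩
  obtain ⟨V, hV, h⟩ := main U hU
  exact ⟨V, hV, fun x h1 h2 => h x h1 fun n => (h1 n).imp fun y hy => ⟨hy, h2 n y hy⟩⟩

end Pool.Agent.Results.MP_c44e76_an.InverseShadow
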